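import Mathlib

/-!
# Weighted matrix power means and Schatten norms
-/

namespace Pool.Agent.H323.PMean

open Matrix

/-- `n × n` complex matrices -/
abbrev Mat (n : ℕ) := Matrix (Fin n) (Fin n) ℂ

variable {n : ℕ}

/-- the real power `A ^ p` of a positive definite matrix, by functional calculus -/
noncomputable def pw (A : Mat n) (p : ℝ) : Mat n := cfc (fun x : ℝ => x ^ p) A

/-- the weighted power mean `(t X^p + (1 - t) Y^p)^(1/p)` -/
noncomputable def pmean (p t : ℝ) (X Y : Mat n) : Mat n :=
  pw (t • pw X p + (1 - t) • pw Y p) (1 / p)

/-- the singular values of a matrix: square roots of the eigenvalues of `Aᴴ A` -/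
noncomputable def singVal (A : Mat n) (i : Fin n) : ℝ :=
  Real.sqrt ((isHermitian_conjTranspose_mul_self A).eigenvalues i)

/-- the Schatten `q`-norm for finite `q`: the `ℓ_q` norm of the vector of singular values -/
noncomputable def schatten (q : ℝ) (A : Mat n) : ℝ := (∑ i, singVal A i ^ q) ^ (1 / q)

/-- the Schatten norm for `q = ∞`: the largest singular value -/
noncomputable def schattenInf (A : Mat n) : ℝ := ⨆ i, singVal A i

end Pool.Agent.H323.PMean
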