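import Pool.Agent.H323.PMean.Main

/-!
# The case `q = ∞`
-/

namespace Pool.Agent.H323.PMean

open Matrix Filter Topology
open scoped ComplexOrder

variable {n : ℕ}

lemma tendsto_lp (s : Fin n → ℝ) (hs : ∀ i, 0 ≤ s i) :
    Tendsto (fun q : ℝ => (∑ i, s i ^ q) ^ (1 / q)) atTop (𝓝 (⨆ i, s i)) := by
  rcases Nat.eq_zero_or_pos n with h0 | hn
  · subst h0
    have h1 : (⨆ i, s i) = 0 := by simp [Real.iSup_of_isEmpty]
    rw [h1]
    refine (tendsto_const_nhds (x := (0 : ℝ))).congr' ?_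
    filter_upwards [eventually_gt_atTop (0 : ℝ)] with q hq
    rw [Finset.univ_eq_empty, Finset.sum_empty, Real.zero_rpow (by positivity)]
  · have : Nonempty (Fin n) := ⟨⟨0, hn⟩⟩
    set M := ⨆ i, s i with hM
    have hbdd : BddAbove (Set.range s) := (Set.finite_range s).bddAbove
    have hle : ∀ i, s i ≤ M := fun i => le_ciSup hbdd i
    obtain ⟨i₀, hi₀⟩ : ∃ i, s i = M := by
      obtain ⟨i, hi⟩ := exists_eq_ciSup_of_finite (f := s)
      exact ⟨i, hi⟩
    have hM0 : 0 ≤ M := hi₀ ▸ hs i₀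
    have hup : Tendsto (fun q : ℝ => ((n : ℝ) ^ (1 / q)) * M) atTop (𝓝 M) := by
      have h2 : Tendsto (fun q : ℝ => 1 / q) atTop (𝓝 0) := by
        simpa using tendsto_inv_atTop_zero (𝕜 := ℝ)
      have hn0 : (n : ℝ) ≠ 0 := by exact_mod_cast hn.ne'
      have h3 : Tendsto (fun q : ℝ => (n : ℝ) ^ (1 / q)) atTop (𝓝 ((n : ℝ) ^ (0 : ℝ))) :=
        (Real.continuousAt_const_rpow hn0).tendsto.comp h2
      rw [Real.rpow_zero] at h3
      simpa using h3.mul_const M
    refine tendsto_of_tendsto_of_tendsto_of_le_of_le' (tendsto_const_nhds (x := M)) hup ?_ ?_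
    · filter_upwards [eventually_gt_atTop (0 : ℝ)] with q hq
      have h4 : s i₀ ^ q ≤ ∑ i, s i ^ q :=
        Finset.single_le_sum (f := fun i => s i ^ q) (fun i _ => Real.rpow_nonneg (hs i) _)
          (Finset.mem_univ i₀)
      have h5 := Real.rpow_le_rpow (Real.rpow_nonneg (hs i₀) _) h4 (show 0 ≤ 1 / q by positivity)
      rw [← Real.rpow_mul (hs i₀), mul_one_div_cancel hq.ne', Real.rpow_one, hi₀] at h5
      exact h5
    · filter_upwards [eventually_gt_atTop (0 : ℝ)] with q hq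
      have h6 : ∑ i, s i ^ q ≤ n * M ^ q := by
        refine (Finset.sum_le_sum fun i _ => Real.rpow_le_rpow (hs i) (hle i) hq.le).trans ?_
        simp
      have h7 := Real.rpow_le_rpow (Finset.sum_nonneg fun i _ => Real.rpow_nonneg (hs i) _) h6
        (show 0 ≤ 1 / q by positivity)
      rw [Real.mul_rpow (by positivity) (Real.rpow_nonneg hM0 _), ← Real.rpow_mul hM0,
        mul_one_div_cancel hq.ne', Real.rpow_one] at h7
      exact h7

theorem mono_inf {X Y : Mat n} (hX : X.PosDef) (hY : Y.PosDef) :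
    MonotoneOn (fun t : ℝ => schattenInf (pmean (1 / 2) t X Y - Y)) (Set.Icc 0 1) := by
  intro s hs t ht hst
  refine le_of_tendsto_of_tendsto
    (tendsto_lp (singVal (pmean (1 / 2) s X Y - Y)) fun i => Real.sqrt_nonneg _)
    (tendsto_lp (singVal (pmean (1 / 2) t X Y - Y)) fun i => Real.sqrt_nonneg _) ?_
  filter_upwards [eventually_ge_atTop (1 : ℝ)] with q hq
  exact mono hq hX hY hs ht hst

end Pool.Agent.H323.PMean
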