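import Pool.Agent.H323.PMean.Defs

/-!
# The power mean with exponent `1/2` is monotone for all Schatten metrics
-/

namespace Pool.Agent.H323.PMean

open Matrix
open scoped MatrixOrder ComplexOrder

variable {n : ℕ}

lemma trace_cfc {H : Mat n} (hH : H.IsHermitian) (g : ℝ → ℝ) :
    (cfc g H).trace = ((∑ i, g (hH.eigenvalues i) : ℝ) : ℂ) := by
  rw [hH.cfc_eq, IsHermitian.cfc, Unitary.conjStarAlgAut_apply, Matrix.trace_mul_comm, ← mul_assoc]
  simp [Matrix.trace_diagonal]

lemma sum_sq {A B : Mat n} (hA : A.IsHermitian) (hB : B.IsHermitian) (h : B = A * A)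
    (g : ℝ → ℝ) : ∑ i, g (hB.eigenvalues i) = ∑ i, g (hA.eigenvalues i ^ 2) := by
  have h1 := trace_cfc hB g
  have h2 := trace_cfc hA (fun x => g (x ^ 2))
  have h3 : cfc (fun x => g (x ^ 2)) A = cfc g B := by
    have hfin : (spectrum ℝ A).Finite := Matrix.finite_real_spectrum
    have h4 : cfc (g ∘ (fun x : ℝ => x ^ 2)) A = cfc g (cfc (fun x : ℝ => x ^ 2) A) :=
      cfc_comp g (fun x : ℝ => x ^ 2) A hA ((hfin.image _).continuousOn _) (hfin.continuousOn _)
    rw [cfc_pow_id (R := ℝ) A 2 (show IsSelfAdjoint A from hA), sq, ← h] at h4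
    exact h4
  rw [h3, h1] at h2
  exact_mod_cast h2

lemma schatten_herm {A : Mat n} (hA : A.IsHermitian) (q : ℝ) :
    schatten q A = (∑ i, |hA.eigenvalues i| ^ q) ^ (1 / q) := by
  unfold schatten singVal
  congr 1
  have := sum_sq hA (isHermitian_conjTranspose_mul_self A) (by rw [hA.eq])
    (fun x => Real.sqrt x ^ q)
  simp only [Real.sqrt_sq_eq_abs] at this
  exact this

/-- diagonal entries in a unitary frame -/
noncomputable def dg (U : unitaryGroup (Fin n) ℂ) (T : Mat n) (i : Fin n) : ℝ :=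
  ((star (U : Mat n) * T * (U : Mat n)) i i).re

lemma dg_add (U : unitaryGroup (Fin n) ℂ) (S T : Mat n) (i : Fin n) :
    dg U (S + T) i = dg U S i + dg U T i := by
  simp [dg, mul_add, add_mul]

lemma dg_sub (U : unitaryGroup (Fin n) ℂ) (S T : Mat n) (i : Fin n) :
    dg U (S - T) i = dg U S i - dg U T i := by
  simp [dg, mul_sub, sub_mul]

lemma dg_smul (U : unitaryGroup (Fin n) ℂ) (a : ℝ) (T : Mat n) (i : Fin n) :
    dg U (a • T) i = a * dg U T i := by
  simp [dg]

/-- weights -/
noncomputable def wt (U V : unitaryGroup (Fin n) ℂ) (i j : Fin n) : ℝ :=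
  Complex.normSq ((star (U : Mat n) * (V : Mat n)) i j)

lemma wt_nonneg (U V : unitaryGroup (Fin n) ℂ) (i j : Fin n) : 0 ≤ wt U V i j :=
  Complex.normSq_nonneg _

lemma star_mul_self' (U : unitaryGroup (Fin n) ℂ) : star (U : Mat n) * (U : Mat n) = 1 :=
  Unitary.coe_star_mul_self U

lemma mul_star_self' (U : unitaryGroup (Fin n) ℂ) : (U : Mat n) * star (U : Mat n) = 1 :=
  Unitary.coe_mul_star_self U

lemma wt_row (U V : unitaryGroup (Fin n) ℂ) (i : Fin n) : ∑ j, wt U V i j = 1 := by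
  set W : Mat n := star (U : Mat n) * (V : Mat n) with hW
  have h1 : W * star W = 1 := by
    rw [hW, star_mul, star_star]
    calc star (U : Mat n) * (V : Mat n) * (star (V : Mat n) * (U : Mat n))
        = star (U : Mat n) * ((V : Mat n) * star (V : Mat n)) * (U : Mat n) := by
          simp only [mul_assoc]
      _ = 1 := by rw [mul_star_self', mul_one, star_mul_self']
  have h2 := congrArg (fun M : Mat n => (M i i).re) h1
  simp only [Matrix.mul_apply, Matrix.star_apply, Matrix.one_apply_eq, Complex.one_re,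
    Complex.re_sum] at h2
  rw [← h2]
  refine Finset.sum_congr rfl fun j _ => ?_
  simp [wt, ← hW, Complex.normSq_apply]

lemma wt_col (U V : unitaryGroup (Fin n) ℂ) (j : Fin n) : ∑ i, wt U V i j = 1 := by
  set W : Mat n := star (U : Mat n) * (V : Mat n) with hW
  have h1 : star W * W = 1 := by
    rw [hW, star_mul, star_star]
    calc star (V : Mat n) * (U : Mat n) * (star (U : Mat n) * (V : Mat n))
        = star (V : Mat n) * ((U : Mat n) * star (U : Mat n)) * (V : Mat n) := by
          simp only [mul_assoc]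
      _ = 1 := by rw [mul_star_self', mul_one, star_mul_self']
  have h2 := congrArg (fun M : Mat n => (M j j).re) h1
  simp only [Matrix.mul_apply, Matrix.star_apply, Matrix.one_apply_eq, Complex.one_re,
    Complex.re_sum] at h2
  rw [← h2]
  refine Finset.sum_congr rfl fun i _ => ?_
  simp [wt, ← hW, Complex.normSq_apply]

lemma dg_eq {T : Mat n} (hT : T.IsHermitian) (U : unitaryGroup (Fin n) ℂ) (i : Fin n) :
    dg U T i = ∑ j, wt U hT.eigenvectorUnitary i j * hT.eigenvalues j := by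
  set V := hT.eigenvectorUnitary with hV
  set W : Mat n := star (U : Mat n) * (V : Mat n) with hW
  set D : Mat n := diagonal (RCLike.ofReal ∘ hT.eigenvalues) with hD
  have h1 : T = (V : Mat n) * D * star (V : Mat n) := by
    have := hT.spectral_theorem
    rw [Unitary.conjStarAlgAut_apply] at this
    exact this
  have h2 : star (U : Mat n) * T * (U : Mat n) = W * D * star W := by
    rw [h1, hW, star_mul, star_star]
    simp only [mul_assoc]
  unfold dg
  rw [h2, Matrix.mul_apply, Complex.re_sum]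
  refine Finset.sum_congr rfl fun j _ => ?_
  rw [hD, Matrix.mul_diagonal]
  simp only [wt, ← hW, Matrix.star_apply, Function.comp_apply, Complex.normSq_apply]
  simp
  ring

lemma dg_self {T : Mat n} (hT : T.IsHermitian) (i : Fin n) :
    dg hT.eigenvectorUnitary T i = hT.eigenvalues i := by
  rw [dg_eq hT]
  rw [Finset.sum_eq_single i]
  · simp [wt, star_mul_self']
  · intro j _ hj
    simp [wt, star_mul_self', Matrix.one_apply_ne hj.symm]
  · simp

lemma pinch {T : Mat n} (hT : T.IsHermitian) (U : unitaryGroup (Fin n) ℂ) {q : ℝ} (hq : 1 ≤ q) :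
    ∑ i, |dg U T i| ^ q ≤ ∑ j, |hT.eigenvalues j| ^ q := by
  set V := hT.eigenvectorUnitary
  have h1 : ∀ i, |dg U T i| ^ q ≤ ∑ j, wt U V i j * |hT.eigenvalues j| ^ q := by
    intro i
    have h2 : |dg U T i| ≤ ∑ j, wt U V i j * |hT.eigenvalues j| := by
      rw [dg_eq hT]
      refine (Finset.abs_sum_le_sum_abs _ _).trans (le_of_eq ?_)
      refine Finset.sum_congr rfl fun j _ => ?_
      rw [abs_mul, abs_of_nonneg (wt_nonneg _ _ _ _)]
    refine (Real.rpow_le_rpow (abs_nonneg _) h2 (by linarith)).trans ?_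
    exact Real.rpow_arith_mean_le_arith_mean_rpow _ _ _ (fun j _ => wt_nonneg _ _ _ _)
      (wt_row U V i) (fun j _ => abs_nonneg _) hq
  refine (Finset.sum_le_sum fun i _ => h1 i).trans ?_
  rw [Finset.sum_comm]
  refine le_of_eq (Finset.sum_congr rfl fun j _ => ?_)
  rw [← Finset.sum_mul, wt_col, one_mul]

lemma dg_nonneg {B : Mat n} (hB : B.PosSemidef) (U : unitaryGroup (Fin n) ℂ) (i : Fin n) :
    0 ≤ dg U B i := by
  have h1 := (hB.conjTranspose_mul_mul_same (U : Mat n)).diag_nonneg (i := i)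
  exact (Complex.le_def.1 h1).1

/-- the diagonal of `E² ` is dominated by the diagonal of `T = C² - B²` -/
lemma key_diag {B C E : Mat n} (hB : B.PosSemidef) (hC : C.PosSemidef) (hE : E.IsHermitian)
    (hCE : C = B + E) (i : Fin n) :
    hE.eigenvalues i ^ 2 ≤ |dg hE.eigenvectorUnitary (C * C - B * B) i| := by
  set U := hE.eigenvectorUnitary with hU
  set D : Mat n := diagonal (RCLike.ofReal ∘ hE.eigenvalues) with hD
  have h1 : E = (U : Mat n) * D * star (U : Mat n) := by
    have := hE.spectral_theorem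
    rw [Unitary.conjStarAlgAut_apply] at this
    exact this
  have h2 : star (U : Mat n) * E = D * star (U : Mat n) := by
    conv_lhs => rw [h1]
    rw [← mul_assoc, ← mul_assoc, star_mul_self', one_mul]
  have h3 : E * (U : Mat n) = (U : Mat n) * D := by
    conv_lhs => rw [h1]
    rw [mul_assoc, star_mul_self', mul_one]
  set S : Mat n := B + C with hS
  have h4 : (2 : ℝ) • (C * C - B * B) = E * S + S * E := by
    rw [hS, hCE]
    simp only [mul_add, add_mul]
    module
  have h5 : dg U (E * S) i = hE.eigenvalues i * dg U S i := by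
    unfold dg
    have : star (U : Mat n) * (E * S) * (U : Mat n) = D * (star (U : Mat n) * S * (U : Mat n)) := by
      rw [← mul_assoc, h2]
      simp only [mul_assoc]
    rw [this, hD, Matrix.diagonal_mul]
    simp
  have h6 : dg U (S * E) i = hE.eigenvalues i * dg U S i := by
    unfold dg
    have : star (U : Mat n) * (S * E) * (U : Mat n) = (star (U : Mat n) * S * (U : Mat n)) * D := by
      simp only [mul_assoc, h3]
    rw [this, hD, Matrix.mul_diagonal]
    simp
    ring
  have h7 : dg U (C * C - B * B) i = hE.eigenvalues i * dg U S i := by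
    have h8 := congrArg (fun M => dg U M i) h4
    simp only [dg_smul, dg_add, h5, h6] at h8
    linarith
  have h9 := dg_nonneg hB U i
  have h10 := dg_nonneg hC U i
  have h11 : dg U S i = dg U B i + dg U C i := by rw [hS, dg_add]
  have h12 : dg U C i = dg U B i + hE.eigenvalues i := by rw [hCE, dg_add, dg_self hE]
  rw [h7, abs_mul, ← sq_abs, sq]
  refine mul_le_mul_of_nonneg_left ?_ (abs_nonneg _)
  rw [abs_of_nonneg (show 0 ≤ dg U S i by linarith), abs_le]
  constructor <;> linarith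

lemma expand {B E : Mat n} (l : ℝ) : (B + l • E) * (B + l • E) - B * B =
    l • ((B + E) * (B + E) - B * B) - (l * (1 - l)) • (E * E) := by
  simp only [mul_add, add_mul, smul_mul_assoc, mul_smul_comm, smul_smul]
  module

lemma scale {q c : ℝ} (hq : 1 ≤ q) (hc : 0 ≤ c) (x : Fin n → ℝ) :
    (∑ i, |c * x i| ^ q) ^ (1 / q) = c * (∑ i, |x i| ^ q) ^ (1 / q) := by
  have h1 : ∀ i, |c * x i| ^ q = c ^ q * |x i| ^ q := by
    intro i
    rw [abs_mul, abs_of_nonneg hc, Real.mul_rpow hc (abs_nonneg _)]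
  simp only [h1]
  rw [← Finset.mul_sum, Real.mul_rpow (Real.rpow_nonneg hc _)
    (Finset.sum_nonneg fun i _ => Real.rpow_nonneg (abs_nonneg _) _), ← Real.rpow_mul hc,
    mul_one_div_cancel (by linarith), Real.rpow_one]

lemma herm_sub {A B : Mat n} (hA : A.IsHermitian) (hB : B.IsHermitian) : (A - B).IsHermitian :=
  hA.sub hB

lemma herm_sq {A : Mat n} (hA : A.IsHermitian) : (A * A).IsHermitian := by
  show (A * A)ᴴ = A * A
  rw [conjTranspose_mul, hA.eq]

lemma core {B C E : Mat n} (hB : B.PosSemidef) (hC : C.PosSemidef) (hE : E.IsHermitian)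
    (hCE : C = B + E) {l : ℝ} (hl0 : 0 ≤ l) (hl1 : l ≤ 1) {q : ℝ} (hq : 1 ≤ q) :
    schatten q ((B + l • E) * (B + l • E) - B * B) ≤ schatten q (C * C - B * B) := by
  have hT : (C * C - B * B).IsHermitian := herm_sub (herm_sq hC.1) (herm_sq hB.1)
  have hBE : (B + l • E).IsHermitian := by
    show (B + l • E)ᴴ = B + l • E
    rw [conjTranspose_add, conjTranspose_smul, hB.1.eq, hE.eq]
    simp
  have hM : ((B + l • E) * (B + l • E) - B * B).IsHermitian :=
    herm_sub (herm_sq hBE) (herm_sq hB.1)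
  have hE2 : (E * E).IsHermitian := herm_sq hE
  rw [schatten_herm hM, schatten_herm hT]
  set N := (∑ j, |hT.eigenvalues j| ^ q) ^ (1 / q) with hN
  have hN0 : 0 ≤ N := Real.rpow_nonneg
    (Finset.sum_nonneg fun i _ => Real.rpow_nonneg (abs_nonneg _) _) _
  obtain ⟨U, hU⟩ : ∃ U, U = hM.eigenvectorUnitary := ⟨_, rfl⟩
  have hk0 : 0 ≤ l * (1 - l) := mul_nonneg hl0 (by linarith)
  have h1 : ∀ i, hM.eigenvalues i = l * dg U (C * C - B * B) i +
      -(l * (1 - l) * dg U (E * E) i) := by
    intro i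
    have e := dg_self hM i
    rw [← hU] at e
    have e2 : dg U ((B + l • E) * (B + l • E) - B * B) i = l * dg U (C * C - B * B) i +
        -(l * (1 - l) * dg U (E * E) i) := by
      rw [expand l, dg_sub, dg_smul, dg_smul, ← hCE, ← sub_eq_add_neg]
    exact e.symm.trans e2
  have h2 : (∑ i, |hM.eigenvalues i| ^ q) ^ (1 / q) ≤
      l * (∑ i, |dg U (C * C - B * B) i| ^ q) ^ (1 / q) +
      (l * (1 - l)) * (∑ i, |dg U (E * E) i| ^ q) ^ (1 / q) := by
    simp only [h1]
    refine (Real.Lp_add_le Finset.univ (fun i => l * dg U (C * C - B * B) i)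
      (fun i => -(l * (1 - l) * dg U (E * E) i)) hq).trans (le_of_eq ?_)
    simp only [abs_neg]
    rw [scale hq hl0, scale hq hk0]
  have hpos : 0 ≤ 1 / q := by positivity
  have h3 : (∑ i, |dg U (C * C - B * B) i| ^ q) ^ (1 / q) ≤ N :=
    Real.rpow_le_rpow (Finset.sum_nonneg fun i _ => Real.rpow_nonneg (abs_nonneg _) _)
      (pinch hT U hq) hpos
  have h4 : (∑ i, |dg U (E * E) i| ^ q) ^ (1 / q) ≤ N := by
    refine Real.rpow_le_rpow (Finset.sum_nonneg fun i _ => Real.rpow_nonneg (abs_nonneg _) _) ?_ hpos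
    refine (pinch hE2 U hq).trans ?_
    rw [sum_sq hE hE2 rfl (fun x => |x| ^ q)]
    refine le_trans (Finset.sum_le_sum fun i _ => ?_) (pinch hT hE.eigenvectorUnitary hq)
    refine Real.rpow_le_rpow (abs_nonneg _) ?_ (by linarith)
    rw [abs_of_nonneg (sq_nonneg _)]
    exact key_diag hB hC hE hCE i
  have h5 : l * (∑ i, |dg U (C * C - B * B) i| ^ q) ^ (1 / q) ≤ l * N :=
    mul_le_mul_of_nonneg_left h3 hl0
  have h6 : (l * (1 - l)) * (∑ i, |dg U (E * E) i| ^ q) ^ (1 / q) ≤ (l * (1 - l)) * N :=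
    mul_le_mul_of_nonneg_left h4 hk0
  nlinarith [mul_nonneg (mul_self_nonneg (1 - l)) hN0]

lemma spec_nonneg {Y : Mat n} (hY : Y.PosSemidef) {x : ℝ} (hx : x ∈ spectrum ℝ Y) : 0 ≤ x := by
  rw [hY.1.spectrum_real_eq_range_eigenvalues] at hx
  obtain ⟨i, rfl⟩ := hx
  exact hY.eigenvalues_nonneg i

lemma pw_psd {Y : Mat n} (hY : Y.PosSemidef) (p : ℝ) : (pw Y p).PosSemidef := by
  rw [← Matrix.nonneg_iff_posSemidef]
  exact cfc_nonneg fun x hx => Real.rpow_nonneg (spec_nonneg hY hx) _

lemma pw_half_sq {Y : Mat n} (hY : Y.PosSemidef) : pw Y (1 / 2) * pw Y (1 / 2) = Y := by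
  have hfin : (spectrum ℝ Y).Finite := Matrix.finite_real_spectrum
  unfold pw
  rw [← cfc_mul (fun x : ℝ => x ^ (1 / 2 : ℝ)) (fun x : ℝ => x ^ (1 / 2 : ℝ)) Y
    (hfin.continuousOn _) (hfin.continuousOn _)]
  conv_rhs => rw [← cfc_id' ℝ Y hY.1]
  refine cfc_congr fun x hx => ?_
  have hx0 := spec_nonneg hY hx
  show x ^ (1 / 2 : ℝ) * x ^ (1 / 2 : ℝ) = x
  rw [← Real.sqrt_eq_rpow, Real.mul_self_sqrt hx0]

lemma pw_two {C : Mat n} (hC : C.IsHermitian) : pw C (1 / (1 / 2)) = C * C := by
  unfold pw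
  have : (fun x : ℝ => x ^ (1 / (1 / 2) : ℝ)) = fun x : ℝ => x ^ 2 := by
    funext x
    rw [show (1 / (1 / 2) : ℝ) = 2 by norm_num, Real.rpow_two]
  rw [this, cfc_pow_id (R := ℝ) C 2 (show IsSelfAdjoint C from hC), sq]

lemma psd_comb {A B : Mat n} (hA : A.PosSemidef) (hB : B.PosSemidef) {t : ℝ} (h0 : 0 ≤ t)
    (h1 : t ≤ 1) : (t • A + (1 - t) • B).PosSemidef :=
  (hA.smul h0).add (hB.smul (by linarith))

theorem mono {q : ℝ} (hq : 1 ≤ q) {X Y : Mat n} (hX : X.PosDef) (hY : Y.PosDef) :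
    MonotoneOn (fun t : ℝ => schatten q (pmean (1 / 2) t X Y - Y)) (Set.Icc 0 1) := by
  intro s hs t ht hst
  show schatten q (pmean (1 / 2) s X Y - Y) ≤ schatten q (pmean (1 / 2) t X Y - Y)
  rcases ht.1.eq_or_lt with h0 | h0
  · have : s = t := le_antisymm hst (by rw [← h0]; exact hs.1)
    rw [this]
  set A := pw X (1 / 2) with hA
  set B := pw Y (1 / 2) with hB
  have hAp : A.PosSemidef := pw_psd hX.posSemidef _
  have hBp : B.PosSemidef := pw_psd hY.posSemidef _
  have hBB : B * B = Y := pw_half_sq hY.posSemidef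
  have e1 : ∀ r : ℝ, 0 ≤ r → r ≤ 1 → pmean (1 / 2) r X Y =
      (r • A + (1 - r) • B) * (r • A + (1 - r) • B) := fun r hr0 hr1 =>
    pw_two (psd_comb hAp hBp hr0 hr1).1
  rw [e1 s hs.1 hs.2, e1 t ht.1 ht.2]
  set C := t • A + (1 - t) • B with hC
  have hCp : C.PosSemidef := psd_comb hAp hBp ht.1 ht.2
  set E := C - B with hE
  have hEh : E.IsHermitian := herm_sub hCp.1 hBp.1
  have hCE : C = B + E := by rw [hE]; abel
  have hs' : s • A + (1 - s) • B = B + (s / t) • E := by
    have : E = t • (A - B) := by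
      rw [hE, hC]
      module
    rw [this, smul_smul, div_mul_cancel₀ _ h0.ne']
    module
  rw [hs']
  have := core hBp hCp hEh hCE (div_nonneg hs.1 ht.1) (div_le_one_of_le₀ hst ht.1) hq
  rw [hBB] at this
  exact this

end Pool.Agent.H323.PMean
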